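import Pool.Agent.Y397.SL.F6

/-!
# The Boolean flag condition for Slip varieties of complete simplicial toric varieties

`X : Fan n ι` is the fan of a complete simplicial toric variety of dimension `n` (for instance of a
smooth projective one) with rays indexed by `ι`. Its Cox ring is `S = 𝕜[xᵢ : i ∈ ι]`, `𝕜 = ℝ` or
`𝕜 = ℂ`, graded by the class group `X.Cl` with `xᵢ` of degree `X.deg i`, and `X` is the quotient of
`X.locus 𝕜 = 𝕜^ι ∖ V(B)` by the group `Hom(X.Cl, 𝕜ˣ)` (if `𝕜 = ℂ`, or if `X` is smooth).

`slip X.deg (X.locus 𝕜) k` is the set of the points of the Slip variety: the homogeneous ideals with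
Hilbert function `h_k(D) = min(k, dim S_D)` that are limits of ideals of sets of `k` distinct
points of `X` with this Hilbert function. The limits are taken in the product of the Grassmannians
of the spaces `S_D`; for `𝕜 = ℂ` the ideals of points form a constructible set of the
(projective) multigraded Hilbert scheme, and its Zariski closure consists of these limits.

The starting file `FlagCondition` shows for smooth projective `X` and `𝕜 = ℂ` that each
`I ∈ Slip_r` is the last member of one chain `I = I_r ⊆ I_{r-1} ⊆ ⋯ ⊆ I_0 = S` with `I_k ∈ Slip_k`.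
Here we prove that `I` carries a whole Boolean lattice: there are ideals `J_T ∈ Slip_{|T|}` for all
sets `T ⊆ {1, …, r}`, with `J_{{1, …, r}} = I`, `J_T ⊆ J_S` for `S ⊆ T` and `J_S J_T ⊆ J_{S ∪ T}`;
in particular each of the `r!` orderings gives a chain, and `I` contains the product of the `r`
ideals `J_{{i}} ∈ Slip_1`. All these ideals are limits along one and the same sequence of
`r`-tuples of points: `J_T` is the limit of the ideals of the points with indices in `T`.

Proof: the approximating tuples of points are moved into general position, which is possible for all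
their subsets at the same time (Baire's theorem); then one takes limits along an ultrafilter, and
compares Hilbert functions.
-/

set_option autoImplicit false

open MvPolynomial Pool.Agent.Y397.SL

namespace Pool.Agent.Results.MP_222440_ag.BooleanFlags

/-- The first `k` elements of `Fin r`. -/
def first (r k : ℕ) : Finset (Fin r) :=
  if h : k ≤ r then (Finset.univ : Finset (Fin k)).map (Fin.castLEEmb h) else Finset.univ

theorem card_first {r k : ℕ} (h : k ≤ r) : (first r k).card = k := by
  rw [first, dif_pos h, Finset.card_map, Finset.card_univ, Fintype.card_fin]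

theorem first_self (r : ℕ) : first r r = Finset.univ := by
  apply Finset.eq_univ_of_card
  rw [card_first le_rfl, Fintype.card_fin]

theorem first_zero (r : ℕ) : first r 0 = ∅ := by
  rw [← Finset.card_eq_zero]
  exact card_first (Nat.zero_le r)

theorem first_mono {r k : ℕ} (h : k < r) : first r k ⊆ first r (k + 1) := by
  intro i hi
  rw [first, dif_pos h.le] at hi
  rw [first, dif_pos (show k + 1 ≤ r from h)]
  simp only [Finset.mem_map, Finset.mem_univ, true_and] at hi ⊢
  obtain ⟨j, rfl⟩ := hi
  exact ⟨Fin.castSucc j, rfl⟩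

/-- Let `X` be a complete simplicial toric variety, `𝕜 = ℝ` or `𝕜 = ℂ`, and `I ∈ Slip_r`.

* There are ideals `J T ∈ Slip_|T|` for all sets `T` of indices and a sequence `q n` of `r`-tuples of
  points of `X` such that `J {1, …, r} = I`, `J ∅` is the whole ring, `J` is order reversing,
  `J S * J T ≤ J (S ∪ T)`, and for every `T` the ideals of the points `q n i`, `i ∈ T`, have the
  generic Hilbert function and converge to `J T`. In particular `I` contains the product of the
  ideals `J {i} ∈ Slip_1`.
* The flag condition: there is a chain `I = C r ≤ C (r - 1) ≤ ⋯ ≤ C 0 = ⊤` with `C k ∈ Slip_k`. -/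
theorem result (𝕜 : Type) [RCLike 𝕜] (n : ℕ) (ι : Type) [Fintype ι] [DecidableEq ι] (X : Fan n ι)
    (r : ℕ) (I : Ideal (MvPolynomial ι 𝕜)) (hI : I ∈ slip X.deg (X.locus 𝕜) r) :
    (∃ (J : Finset (Fin r) → Ideal (MvPolynomial ι 𝕜)) (q : ℕ → Fin r → ι → 𝕜),
      J Finset.univ = I ∧ J ∅ = ⊤ ∧ (∀ T, J T ∈ slip X.deg (X.locus 𝕜) T.card) ∧
      (∀ S T, S ⊆ T → J T ≤ J S) ∧ (∀ S T, J S * J T ≤ J (S ∪ T)) ∧ ∏ i, J {i} ≤ I ∧
      (∀ n i, q n i ∈ X.locus 𝕜) ∧
      ∀ T, (∀ n D, hilb X.deg (onSet X.deg (q n) T) D = genHilb 𝕜 X.deg T.card D) ∧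
        Converges X.deg (fun n => onSet X.deg (q n) T) (J T)) ∧
    ∃ C : ℕ → Ideal (MvPolynomial ι 𝕜), C r = I ∧ C 0 = ⊤ ∧ (∀ k < r, C (k + 1) ≤ C k) ∧
      ∀ k ≤ r, C k ∈ slip X.deg (X.locus 𝕜) k := by
  classical
  obtain ⟨J, q, h1, h2, h3, h4, h5, h6, h7⟩ := X.boolean_flags I hI
  have hprod : ∀ T : Finset (Fin r), ∏ i ∈ T, J {i} ≤ J T := by
    intro T
    induction T using Finset.induction_on with
    | empty => rw [h2]; exact le_top
    | insert a T ha ih =>
      rw [Finset.prod_insert ha, Finset.insert_eq]
      exact (Ideal.mul_mono le_rfl ih).trans (h5 _ _)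
  refine ⟨⟨J, q, h1, h2, h3, h4, h5, by rw [← h1]; exact hprod _, h6, h7⟩, fun k => J (first r k),
    ?_, ?_, ?_, ?_⟩
  · change J (first r r) = I
    rw [first_self, h1]
  · change J (first r 0) = ⊤
    rw [first_zero, h2]
  · exact fun k hk => h4 _ _ (first_mono hk)
  · intro k hk
    have h := h3 (first r k)
    rwa [card_first hk] at h

end Pool.Agent.Results.MP_222440_ag.BooleanFlags
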